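import Pool.Agent.H843.Ex13

/-!
# The conjecture D and the homological equivalences of all Weil cohomology theories

Let `W` be a Weil cohomology theory which satisfies hard Lefschetz. Homological equivalence for
`W` is numerical equivalence if and only if the sign conjecture holds and no Weil cohomology
theory with the same Betti numbers kills more cycles. The conjecture D holds for all theories with
the Betti numbers of `W` if and only if the sign conjecture holds for `W` and all these theories
have the same homological equivalence. Under the sign conjecture a cycle is numerically trivial if
and only if its class vanishes in some theory which cannot be distinguished from `W` by numbers.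
-/

open CategoryTheory AlgebraicGeometry

universe u v

namespace Pool.Agent.Results.MP_5f0950_ag.AllTheoriesAgree

open Pool.Agent.H914 Pool.Agent.H914.VarClass Pool.Agent.H914.VarClass.Obj
  Pool.Agent.H914.WeilCohomology Pool.Agent.H843

variable {k : Type u} [Field k] {𝒱 : VarClass k} {ops : CycleOps 𝒱}

/-- Let `W` be a Weil cohomology theory with `H(X) ≠ 0` for all `X` on a class of varieties which
contains a point and is closed under products, and let `Div X` be a nonempty set of divisors on
`X` for which hard Lefschetz holds. Then
* under the sign conjecture, a cycle is numerically trivial if and only if its class is zero for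
  some theory which cannot be distinguished from `W`;
* the conjecture D for `W` is equivalent to the sign conjecture for `W` together with: every cycle
  whose class is zero for some theory with the same Betti numbers has class zero for `W` (and to
  the same with the theories which cannot be distinguished from `W`);
* the conjecture D for all theories with the Betti numbers of `W` (or for those among them which
  satisfy hard Lefschetz) is equivalent to the sign conjecture for `W` together with: all these
  theories have the homological equivalence of `W` (and to the Lefschetz standard conjecture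
  together with the same for the theories which satisfy hard Lefschetz). -/
theorem result (W : WeilCohomology.{u, max (u + 1) v} ops) (hP : ∃ P : 𝒱.Obj, P.dim = 0)
    (hone : ∀ X : 𝒱.Obj, (1 : W.H X) ≠ 0) (Div : ∀ X : 𝒱.Obj, Set X.Cycles)
    (hne : ∀ X, (Div X).Nonempty) (hcyc : ∀ X, ∀ D ∈ Div X, X.IsCyc 1 D)
    (hHL : HardLefschetzFor W Div) :
    (SignAll W → ∀ (X : 𝒱.Obj), ∀ j ≤ X.dim, ∀ z, X.IsCyc j z → (NumTrivial ops X j z ↔
      ∃ W' : WeilCohomology.{u, max (u + 1) v} ops, Indistinguishable W W' ∧ W'.cl X z = 0)) ∧
    List.TFAE [
      HomEqNumAll W,
      SignAll W ∧ ∀ W' : WeilCohomology.{u, max (u + 1) v} ops, SameBetti W W' → HomEqFiner W' W,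
      SignAll W ∧ ∀ W' : WeilCohomology.{u, max (u + 1) v} ops, Indistinguishable W W' →
        HomEqFiner W' W] ∧
    List.TFAE [
      ∀ W' : WeilCohomology.{u, max (u + 1) v} ops, SameBetti W W' → HomEqNumAll W',
      ∀ W' : WeilCohomology.{u, max (u + 1) v} ops, SameBetti W W' → HardLefschetzFor W' Div →
        HomEqNumAll W',
      SignAll W ∧ ∀ W' : WeilCohomology.{u, max (u + 1) v} ops, SameBetti W W' →
        HomEqFiner W W' ∧ HomEqFiner W' W,
      (∀ X, ∀ D ∈ Div X, LefschetzB W X D) ∧ ∀ W' : WeilCohomology.{u, max (u + 1) v} ops,
        SameBetti W W' → HardLefschetzFor W' Div → HomEqFiner W W' ∧ HomEqFiner W' W] :=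
  Ex.mainD W hP hone Div hne hcyc hHL

end Pool.Agent.Results.MP_5f0950_ag.AllTheoriesAgree
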