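import Pool.Agent.H858.AD.Main

/-!
# The standard conjecture D for almost all algebraic classes of fixed codimension on `Y × X ^ n`

Let `H` be a Weil cohomology theory and `X`, `Y` smooth projective varieties, `dim X > 0`. Let `a_n` be
the dimension of the space of the classes of algebraic cycles of codimension `j` on `Y × X ^ n`, and
`r_n` the rank of the group of the cycles of codimension `j` modulo numerical equivalence. The
conjecture D in codimension `j` for `Y × X ^ n` says that `r_n = a_n`. Put `L = 2 j` if `b_1(X) > 0`
and `L = j` if `b_1(X) = 0`, and let `b`, `b'` be the sums of the Betti numbers of `X`, `Y`.

**Theorem.** If the conjecture D is known for the leading terms of `X` (see below) then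

1. `(1 - 4 L b ^ (L - 1) b' / n) a_n ≤ r_n` for all `n ≥ 1`. So `r_n / a_n → 1`: almost all algebraic
   classes of codimension `j` satisfy the conjecture D, for **every** variety `Y`.
2. If the conjecture D is true in codimension `j` for `Y × X ^ r` for one `r ≥ max(L - 1, 1)`, then it
   is true in codimension `j` for all `Y × X ^ n`, `n ≥ r`.

The hypothesis on the leading terms: there is a morphism `S → X`, injective on the first nonzero
cohomology group `H^1(X)` or `H^2(X)` of positive degree, and D is true in codimension `j` for `S ^ L`;
or `b_1(X) = 0` and `H^(2 dim X - 2)(X)` is spanned by classes of curves. **In characteristic zero it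
is true for all `X` and `j`**: take for `S` a smooth linear section of dimension at most two, by the
weak Lefschetz theorem and since B, hence D, is known for the powers of curves and surfaces. So the
theorem is unconditional for all varieties `X` of positive dimension and all `Y` in characteristic
zero, and in positive characteristic if `b_1(X) = 0` and `H^2(X)` is spanned by divisors.

**Proof.** Write the classes on `Y × X ^ n` in a basis of words. A word of degree `2 j` with at least
`L` nontrivial letters in the factors `X` consists of exactly `L` letters of the smallest degree `c`,
`c L = 2 j`. Restrict a numerically trivial algebraic class (by a push-forward of its product with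
points) to the `L` factors, and pull it back to `S ^ L`; it is numerically trivial there, so it
vanishes, and the coefficients of these words are zero. There are only `O(n ^ (L - 1))` other words;
but there are at least `C(n, L)` independent algebraic classes, pulled back from one class on `X ^ L`
with a nonzero component in the tensor power of `H^c(X)`: the external power of an ample divisor or of
a divisor on `X × X`. This proves 1. In the same way the coefficients of the words with at most
`L - 1` nontrivial letters vanish by D for `Y × X ^ r`, which proves 2.
-/

open CategoryTheory AlgebraicGeometry

universe u v

namespace Pool.Agent.Results.MP_5f0950_ag.AlmostAllClasses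

open Pool.Agent.H914 Pool.Agent.H447 Pool.Agent.W534 Pool.Agent.Y163 VarClass Obj WeilCohomology
  Pool.Agent.H858.AD

/-- **The conjecture D for almost all classes.** -/
theorem result {k : Type u} [Field k] {𝒱 : VarClass k} {ops : CycleOps 𝒱}
    (W : WeilCohomology.{u, v} ops) (X Y : 𝒱.Obj) (hd : 0 < X.dim)
    -- ample divisors on `X` and on `Y`
    (hX : HasTop W X) (hY : HasTop W Y)
    -- the polarisation of the Picard variety, if `b_1(X) > 0`
    (hM : W.gr X 1 ≠ ⊥ → HasMixed W X)
    -- the conjecture D for the leading terms of `X` (known in characteristic zero)
    (j : ℕ) (hj : 0 < j) (hD : LeadIsKnown W X j) :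
    (∀ n, ShareAtLeast W (Y.prod (pw X n)) j
      (1 - loss (leadNum W X j) (bettiSum W X) (bettiSum W Y) (n + 1))) ∧
    (∀ r n, leadNum W X j ≤ r + 2 → r ≤ n → Propagates W Y X j r n) :=
  main hd hX hY hM hj hD

end Pool.Agent.Results.MP_5f0950_ag.AlmostAllClasses
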