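import Pool.Agent.H843.Ho8

/-!
# The numerical Hodge index theorem and the existence of a perfect Weil cohomology theory

The numerical Hodge index theorem (the standard conjecture of Hodge type for numerical
equivalence, a statement about intersection numbers only) together with the sign conjecture for
one Weil cohomology theory is equivalent to the existence of a Weil cohomology theory which
satisfies all standard conjectures of Grothendieck: homological and numerical equivalence
coincide, the Kunneth projectors are algebraic, hard Lefschetz holds, the operators `Λ` are
algebraic and the conjecture of Hodge type holds. Neither hard Lefschetz nor the algebraicity of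
the Kunneth projectors is assumed for the given theory.
-/

open CategoryTheory AlgebraicGeometry

universe u v

namespace Pool.Agent.Results.MP_5f0950_ag.HodgeIndexGivesAll

open Pool.Agent.H914 Pool.Agent.H914.VarClass Pool.Agent.H914.VarClass.Obj
  Pool.Agent.H914.WeilCohomology Pool.Agent.H843

variable {k : Type u} [Field k] {𝒱 : VarClass k} {ops : CycleOps 𝒱}

/-- Let `Pol X` be sets of divisors on the varieties `X` of a class of varieties which is closed
under products and contains a point, such that the `Pol X` behave like the sets of all ample
divisors. Then
* some Weil cohomology theory satisfies the sign conjecture, and the numerical Hodge index theorem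
  holds for all `X` and all `D` in `Pol X`, if and only if some Weil cohomology theory satisfies
  all standard conjectures for all `X` and all `D` in `Pol X`;
* if `W₀` is such a theory, then an arbitrary theory `W` satisfies hard Lefschetz and the
  conjecture B for `X` and `D` in `Pol X` if and only if the Betti numbers of `X` for `W` are those
  for `W₀`. -/
theorem result {Pol : ∀ X : 𝒱.Obj, Set X.Cycles} (hPol : IsPolSystem ops Pol)
    (hP : ∃ P : 𝒱.Obj, P.dim = 0) :
    (((∃ W : WeilCohomology.{u, max (u + 1) v} ops, SignAll W) ∧
        ∀ X, ∀ D ∈ Pol X, NumHodgeIndex ops X D) ↔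
      ∃ W₀ : WeilCohomology.{u, max (u + 1) v} ops, AllStandard W₀ Pol) ∧
    ∀ W₀ W : WeilCohomology.{u, max (u + 1) v} ops, AllStandard W₀ Pol →
      ∀ X, ∀ D ∈ Pol X, ((HardLefschetz W X D ∧ LefschetzB W X D) ↔
        ∀ i ≤ X.dim, W.betti X i = W₀.betti X i) :=
  ⟨Ho.main hPol hP, fun _ _ h X D hD =>
    Ho.lef_iff_betti (hPol.isCyc X D hD) ⟨((h X).2.2 D hD).1, ((h X).2.2 D hD).2.1⟩⟩

end Pool.Agent.Results.MP_5f0950_ag.HodgeIndexGivesAll
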