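import Mathlib
import Pool.Agent.H298.Core.WeilRel
import Pool.Graph.R_seed8.Y1.CT.CodimNum
import Pool.Agent.H298.Core.Double

/-!
# The standard conjecture D over finite fields for the products of arbitrary varieties with abelian
varieties whose CM fields have irreducible odd part or primitive core

**In short.** Let `K` be a CM field of degree `2 g`, `K₀` its maximal real subfield and `2 ^ v`, `1
≤ v ≤ g`, the degree of the Galois closure of `K` over the Galois closure of `K₀` (typically `v =
g`). The theorem is for the Weil numbers `π` all powers of which generate `K`, in the following
cases (`FieldCriteria`), among others: **(a) `v > g / 3`; (b) the slopes of `π` have odd
denominators, for example `π` is ordinary, and `v > g / 4`, or `g` is the product of two prime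
numbers and `v > 1`, or `g` is prime, or `K` has few divisors in the sense of `FewDivisors`; (c) the
Galois group of `K₀` is doubly transitive, and `g` is odd, or `g - 1` is a prime number, or at least
`g` is none of the numbers `10, 16, 26, 28, 36, …` (`TwoGraphDegree`); or it is triply transitive,
for example the symmetric group, or the alternating group if `g ≥ 5`, `g ≥ 3`; and no norm of `π` to
an imaginary quadratic field is supersingular** (this is
so if `g` is odd and `π` is ordinary). The general hypothesis (`IsCoreWeil`) is explained below.

**Cores.** Let `X` be the set of the complex embeddings of the CM field `K`, `[K : ℚ] = 2 g`. The
automorphisms of `ℂ` which map all elements of `X` to themselves or to their complex conjugates are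
called sign changes. The first core of `φ : X` consists of the `ψ : X` which are moved by the same
sign changes as `φ`. If one uses all automorphisms which map the elements of the first core to
themselves or to their conjugates, one obtains the second core, inside of the first one, and so on
(`coreOf`). The cores of the same index have the same number `2 c` of elements, `c` divides `g`, and
the smallest such number `c` is the core number of `K`. It satisfies `c ≤ g / v`, and if a prime
number `q` divides the discriminant of `K`, but not the discriminant of the maximal real subfield,
then `q ^ c` divides the discriminant of `K`. `FewDivisors` says that all divisors of `g` which
satisfy these conditions are one or prime.

**The Weil numbers.** Let `p` be a prime number, `q = p ^ a`, let `K i` (`i` in a finite set) be CM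
fields and `π i` Weil numbers for `q` in `K i` such that each power `(π i) ^ n`, `n ≥ 1`, generates
`K i`. By Honda and Tate they correspond to the abelian varieties over the field with `q` elements
which are geometrically simple with commutative endomorphism ring, and to other abelian varieties.
Suppose that for each `K = K i` one of the following conditions holds (`IsCoreWeil`).

* The rational functions on `X` which change their sign under complex conjugation are an irreducible
  representation of the automorphisms of `ℂ` (`OddIrreducible`), for example because the core number
  of `K` is one.
* There is a core with `c` pairs of embeddings, and `c` is a prime number, or `c = [K : F]` for a
  subfield `F`, not totally real, such that the automorphisms of `ℂ` act doubly transitively on the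
  extensions to `K` of an embedding of `F` (`PrimitiveCore`); and there is **no** subfield `F` with
  `[K : F] = c`, not totally real, in which the norm `N` of `π i` is supersingular
  (`SupersingularNorm`; this means that `N ^ 2 / q ^ c` is a root of unity).

The condition on the norms in the second case is necessary and sufficient for the absence of
relations between the conjugates of `π i` (`NormCriteria`), and so of exotic Tate classes on the
powers of its abelian variety; it is satisfied if `c = 2`, if `c` is odd and the slopes of `π i`
have odd denominators (for example in the ordinary case), and if all subfields `F` with `[K : F] =
c` are totally real. There are no other conditions on `π i`, its slopes, the decomposition of `p` in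
`K i`, the degree or the Galois group of `K i`. The fields `K i` are pairwise independent
(`PairwiseIndep`; no condition if there is only one field). Let `f i` be monic polynomials whose
complex roots are conjugates of `π i` (`IsPolyOf`), for instance powers of the characteristic
polynomials of Frobenius. For all such data let `A` be an abelian variety over the field with `Q = q
^ s` elements which is isogenous to a product of powers of abelian varieties coming from the field
with `q` elements, with characteristic polynomials `f i`.

**The theorem** (`HomNumTimes`). Let `Z` be **any** smooth projective variety over the field with
`Q` elements such that the Frobenius eigenvalues on its cohomology and their conjugates are
unrelated to the fields `K i` (`AreUnrelated`). A complex number `ρ ≠ 0` is unrelated to the fields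
`K i` (`Unrelated`) if a rational function on the complex embeddings of `K i` which changes its sign
under complex conjugation and is invariant under all automorphisms of `ℂ` that fix a power of `ρ` is
zero. This is so if for each embedding `ψ` of `K i` some automorphism which fixes a power of `ρ` is
the complex conjugation on `ψ (K i)`, for instance if a power of `ρ` is in a totally real field, or
in a number field `F` from which `K i` is separated by a prime number (see below).

Then for every `c` **homological and numerical equivalence coincide for the cycles of codimension
`c` on `A × Z` if and only if they coincide for the cycles of the codimensions `c - i`, `0 ≤ i ≤ dim
A`, on `Z`.** If `Z` is a point it is the standard conjecture D for `A` in all codimensions. The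
conjecture holds for instance for all cycles of codimension at most two on `A × Z` if it holds for
those of codimension two on `Z`, and for all cycles on `A × Z` if `Z` is a surface. No conjecture is
assumed, and the cohomology is **any** Weil cohomology with algebraically closed coefficient field,
for instance `ℓ`-adic cohomology for every `ℓ`, or crystalline cohomology, with extended
coefficients. The Frobenius endomorphism acts on `CH^i(A × Z)_ℚ` as multiplication by `Q ^ i`.

Part two (`AllCriteria`) contains the criteria: the cases (a), (b) and (c) above (`FieldCriteria`, `DoublyCriteria`),
the facts about the cores (`CoreFacts`) and about the norms (`NormCriteria`), the independence of
the fields, and the condition on the eigenvalues. A prime number `ℓ` separates `K i` from a number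
field `F` if `ℓ` divides the discriminant of `K i` but not the one of its maximal real subfield and
not the one of `F`. The fields `K i` are pairwise independent if any two of them are separated by a
prime number (in one direction). All nonzero elements of `F` are independent of the `K i`, in
particular unrelated to them, if all `K i` are separated from `F`. So for example, if `ℓ` divides
the discriminant of a CM field `K` and `ℓ ^ 2` does not, then the theorem holds for all Weil numbers
`π` in `K` with `ℚ(π ^ n) = K` for all `n`, and all varieties whose eigenvalues lie in fields of a
discriminant prime to `ℓ`.

The framework (`TheoryData`, `IsChow`, `IsWeil`) is the one of the library: the Chow groups `C` with
their pull-backs, push-forwards and products, and a Weil cohomology theory `H` with coefficients in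
an algebraically closed field, on a class `𝒱` of smooth proper varieties over `k`.

**What was known.** For abelian varieties over finite fields Clozel has proved D for `ℓ`-adic
cohomology and infinitely many `ℓ`; for all `ℓ` it is known if the Tate conjecture is, for instance
for the powers of one abelian variety of prime dimension (Tankeev; for CM types Kubota and Ribet;
Lenstra and Zarhin). In the library there are products with unrelated varieties for almost all slope
types (`AllCMTypesTimes`, whose machine is used). New here are the abelian varieties of all
dimensions in the fields with primitive cores, with a condition on the norms which is necessary and
sufficient, without exceptional types.

**The proof.** It is sufficient to show for each field `K` that the function `w`, the slope of `φ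
(π)` minus one half, on the set `X` is not orthogonal to a nonzero space of odd functions which is
stable under the automorphisms of `ℂ`. If the odd functions are irreducible this is clear. Let `r`
be an element of such a space with integral values. By the sign changes one can cut `r` down; this
gives, by induction on the size of the support and on the index of the core, a relation which is
supported in one core. The automorphisms preserving the core act transitively on it. If it has `2 c`
elements with a prime number `c`, then a Sylow subgroup contains an element which has two orbits of
length `c` on the core, exchanged by the complex conjugation. Since the cyclotomic polynomial is
irreducible, either `w (τ φ) = w (τ φ')` for all `τ` with two different `φ`, `φ'` of the core, or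
the sums of `w` over the translates of one orbit are zero, and the orbit consists of the extensions
of an embedding of a subfield `F` with `[K : F] = c`, which is not totally real. In the doubly
transitive case the extensions of an embedding of `F` are one half of the core (a sign change moves
all of them or none), and an average over a stabilizer gives the same two alternatives. In the first
case `φ (π)` and `φ' (π)` have the same absolute values at all places of all conjugates, so they
differ by a root of unity, and a power of `π` does not generate `K`. In the second case the norm of
`π` in `F` is supersingular. Conversely a supersingular norm is a relation, by Kronecker's theorem.
For the cases (a), (b) and (c) one uses that a sign change is determined by the first cores which it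
moves, so that `2 ^ v ≤ 2 ^ (g / c)`, and that for a triply transitive group either the odd
functions are irreducible or the signs are given by a character of the group, so that `K` contains
an imaginary quadratic field. If the group is doubly transitive, let `V` be a space of odd functions
which is stable under the automorphisms, neither zero nor everything. The values of its reproducing
kernel at two embeddings in different pairs are `β` or `-β`, and `β ≠ 0`; the signs form a regular
two-graph on the `g` pairs, with the eigenvalues `r` on `V` and `-s` on the orthogonal space,
`r s = g - 1`, `(r + s) dim V = g s`. If `g` is odd then `r` or `s` is even, and a descent modulo two
shows that the nonzero functions in one of the two spaces have no zeros; by the maximum principle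
this is also true if `r` or `s` is `1` or `-1`. So this space has dimension one, and the signs of its
functions give an imaginary quadratic subfield.
-/

set_option autoImplicit false

namespace Pool.Agent.Results.MP_5f0950_ag.SmallCoreFields

open NumberField Polynomial Pool.Agent.H977R3.CM Pool.Agent.Y1.CT Pool.Agent.H298.Core

/-- **Homological and numerical equivalence coincide for cycles of codimension `c` on `A × Z` if and
only if they coincide for cycles of the codimensions `c - i` on `Z`, `0 ≤ i ≤ dim A`, for all
abelian varieties `A` whose Weil numbers lie in independent CM fields with irreducible odd part or
primitive core, all unrelated varieties `Z` and all Weil cohomology theories.** -/
theorem result :
    (∀ (p : ℕ) [Fact p.Prime] (a : ℕ), 0 < a → ∀ (I : Type) [Fintype I] (K : I → Type)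
      [∀ i, Field (K i)] [∀ i, NumberField (K i)] [∀ i, IsCMField (K i)], PairwiseIndep K →
      ∀ (π : ∀ i, K i) (f : I → ℤ[X]), (∀ i, IsCoreWeil p a (π i)) →
      (∀ i, IsPolyOf (π i) (f i)) → HomNumTimes K (p ^ a) f) ∧ AllCriteria :=
  ⟨fun _ _ _ ha _ _ _ _ _ _ hK _ _ hπ hf =>
    homNumTimes (Nat.one_lt_pow ha.ne' (Fact.out : Nat.Prime _).one_lt)
      (noRel_unrelated ha hK hπ hf), allCriteria_hold⟩

end Pool.Agent.Results.MP_5f0950_ag.SmallCoreFields
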